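import Pool.Agent.R363.LFX.Asm
import Pool.Agent.R363.LFX.D0
import Pool.Agent.R363.LFX.D1
import Pool.Agent.R363.LFX.D2
import Pool.Agent.R363.LFX.D3
import Pool.Agent.R363.LFX.D4
import Pool.Agent.R363.LFX.D5
import Pool.Agent.R363.LFX.E1
import Pool.Agent.R363.LFX.E2
import Pool.Agent.R363.LFX.T
import Pool.Agent.R363.LFX.V1a
import Pool.Agent.R363.LFX.V1b
import Pool.Agent.R363.LFX.V1c
import Pool.Agent.R363.LFX.VOL
import Pool.Agent.R363.LFX.V2
import Pool.Agent.R363.LFX.CUBE

namespace Pool.Agent.Results.MP_507414_an.TopForms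

open MeasureTheory Pool.Agent.R363.LF

/-- For every `n = k + 2 ≥ 2` the question for `n`-forms in `n`-space has a negative answer:
no constant `C` works, not even for the single measure given by Lebesgue measure on the unit
cube and the open set which is the whole space. -/
theorem result (k : ℕ) (C : ℝ) :
    ¬ LusinQ (k + 2) (k + 1) C ∧
    ¬ LusinAt (k + 2) (k + 1) ((volume : Measure (E (k + 2))).restrict (cubeE (k + 2)))
      Set.univ C := by
  have h := assemble (t_D5 (t_D1 t_D0) (t_D2 t_D0) (t_D3 t_D0) (t_D4 t_D0)) t_E1 t_E2 t_T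
    t_V1a t_V1b t_V1c t_Vol (t_V2 t_Vol) t_Cube k C
  exact ⟨notQ t_Cube k C h, h⟩

end Pool.Agent.Results.MP_507414_an.TopForms
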